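import Pool.Agent.helper26.EC.SpecS

/-!
# Project EC (MP_5628fe_nt), row LOW: combined weights from the fundamental lemma and Rosser's weights
-/

set_option autoImplicit false

namespace Pool.Agent.EC

open Finset
open Pool.Agent.CHS (PB WLo WUp)
open Pool.Agent.RLS (SS lam)

private theorem LOW_s1 (Γ P : Finset ℕ) (f : Finset ℕ → ℝ) :
    ∑ F ∈ Γ.powerset, (if F ⊆ P then f F else 0) = ∑ E ∈ (Γ ∩ P).powerset, f E := by
  rw [← Finset.sum_filter]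
  refine Finset.sum_congr ?_ fun _ _ => rfl
  ext F
  simp only [Finset.mem_filter, Finset.mem_powerset, Finset.subset_inter_iff]

private theorem LOW_split (F P0 : Finset ℕ) (q : ℕ) (h : F \ P0 = {q}) : F = insert q (F ∩ P0) := by
  ext x
  rw [Finset.mem_insert, Finset.mem_inter]
  constructor
  · intro hx
    by_cases hxP : x ∈ P0
    · exact Or.inr ⟨hx, hxP⟩
    · left
      have : x ∈ F \ P0 := Finset.mem_sdiff.2 ⟨hx, hxP⟩
      rw [h] at this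
      exact Finset.mem_singleton.1 this
  · rintro (rfl | hx)
    · have : x ∈ F \ P0 := by rw [h]; exact Finset.mem_singleton_self x
      exact (Finset.mem_sdiff.1 this).1
    · exact hx.1

private theorem LOW_s2 (Γ P : Finset ℕ) (p : ℕ) (hp : p ∉ P) (f : Finset ℕ → ℝ) :
    ∑ F ∈ Γ.powerset, (if F \ P = {p} then f F else 0) =
      if p ∈ Γ then ∑ E ∈ (Γ ∩ P).powerset, f (insert p E) else 0 := by
  rw [← Finset.sum_filter]
  split_ifs with h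
  · refine Finset.sum_nbij' (fun F => F ∩ P) (fun E => insert p E) ?_ ?_ ?_ ?_ ?_
    · intro F hF
      rw [Finset.mem_filter, Finset.mem_powerset] at hF
      rw [Finset.mem_powerset]
      exact Finset.inter_subset_inter hF.1 (Finset.Subset.refl P)
    · intro E hE
      rw [Finset.mem_powerset] at hE
      rw [Finset.mem_filter, Finset.mem_powerset]
      refine ⟨?_, ?_⟩
      · intro x hx
        rcases Finset.mem_insert.1 hx with rfl | hx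
        · exact h
        · exact (Finset.mem_inter.1 (hE hx)).1
      · ext x
        rw [Finset.mem_sdiff, Finset.mem_insert, Finset.mem_singleton]
        constructor
        · rintro ⟨rfl | hx, h2⟩
          · rfl
          · exact absurd (Finset.mem_inter.1 (hE hx)).2 h2
        · rintro rfl
          exact ⟨Or.inl rfl, hp⟩
    · intro F hF
      rw [Finset.mem_filter, Finset.mem_powerset] at hF
      exact (LOW_split F P p hF.2).symm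
    · intro E hE
      rw [Finset.mem_powerset] at hE
      ext x
      rw [Finset.mem_inter, Finset.mem_insert]
      constructor
      · rintro ⟨rfl | hx, h2⟩
        · exact absurd h2 hp
        · exact hx
      · intro hx
        exact ⟨Or.inr hx, (Finset.mem_inter.1 (hE hx)).2⟩
    · intro F hF
      rw [Finset.mem_filter, Finset.mem_powerset] at hF
      exact congrArg f (LOW_split F P p hF.2)
  · refine Finset.sum_eq_zero fun F hF => ?_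
    exfalso
    rw [Finset.mem_filter, Finset.mem_powerset] at hF
    have : p ∈ F \ P := by rw [hF.2]; exact Finset.mem_singleton_self p
    exact h (hF.1 (Finset.mem_sdiff.1 this).1)

/-- Subsets of a union of two disjoint sets. -/
private theorem LOW_prod (P₀ P₁ Γ : Finset ℕ) (hd : Disjoint P₀ P₁) (u v : Finset ℕ → ℝ) :
    ∑ F ∈ (Γ ∩ (P₀ ∪ P₁)).powerset, u (F ∩ P₀) * v (F ∩ P₁) =
      (∑ E ∈ (Γ ∩ P₀).powerset, u E) * ∑ K ∈ (Γ ∩ P₁).powerset, v K := by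
  rw [Finset.sum_mul_sum, ← Finset.sum_product']
  refine Finset.sum_nbij' (fun F => (F ∩ P₀, F ∩ P₁)) (fun q => q.1 ∪ q.2) ?_ ?_ ?_ ?_ ?_
  · intro F hF
    rw [Finset.mem_powerset] at hF
    rw [Finset.mem_product, Finset.mem_powerset, Finset.mem_powerset]
    constructor
    · intro x hx
      rw [Finset.mem_inter] at hx ⊢
      exact ⟨(Finset.mem_inter.1 (hF hx.1)).1, hx.2⟩
    · intro x hx
      rw [Finset.mem_inter] at hx ⊢
      exact ⟨(Finset.mem_inter.1 (hF hx.1)).1, hx.2⟩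
  · rintro ⟨E, K⟩ hq
    rw [Finset.mem_product, Finset.mem_powerset, Finset.mem_powerset] at hq
    rw [Finset.mem_powerset]
    intro x hx
    rw [Finset.mem_inter, Finset.mem_union]
    rcases Finset.mem_union.1 hx with hx | hx
    · have h2 := Finset.mem_inter.1 (hq.1 hx)
      exact ⟨h2.1, Or.inl h2.2⟩
    · have h2 := Finset.mem_inter.1 (hq.2 hx)
      exact ⟨h2.1, Or.inr h2.2⟩
  · intro F hF
    rw [Finset.mem_powerset] at hF
    show (F ∩ P₀) ∪ (F ∩ P₁) = F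
    rw [← Finset.inter_union_distrib_left]
    exact Finset.inter_eq_left.2 fun x hx => (Finset.mem_inter.1 (hF hx)).2
  · rintro ⟨E, K⟩ hq
    rw [Finset.mem_product, Finset.mem_powerset, Finset.mem_powerset] at hq
    have hE : ∀ x ∈ E, x ∈ P₀ := fun x hx => (Finset.mem_inter.1 (hq.1 hx)).2
    have hK : ∀ x ∈ K, x ∈ P₁ := fun x hx => (Finset.mem_inter.1 (hq.2 hx)).2
    refine Prod.ext ?_ ?_
    · show (E ∪ K) ∩ P₀ = E
      ext x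
      rw [Finset.mem_inter, Finset.mem_union]
      constructor
      · rintro ⟨hx | hx, h2⟩
        · exact hx
        · exact absurd (hK x hx) (Finset.disjoint_left.1 hd h2)
      · intro hx
        exact ⟨Or.inl hx, hE x hx⟩
    · show (E ∪ K) ∩ P₁ = K
      ext x
      rw [Finset.mem_inter, Finset.mem_union]
      constructor
      · rintro ⟨hx | hx, h2⟩
        · exact absurd h2 (Finset.disjoint_left.1 hd (hE x hx))
        · exact hx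
      · intro hx
        exact ⟨Or.inr hx, hK x hx⟩
  · intro F _
    rfl

/-- The combined weights. -/
private noncomputable def LOW_C (P₀ P₁ Q : Finset ℕ) (a₁ a₂ a₃ a₄ : ℝ) (cp cm lp lm : Finset ℕ → ℝ)
    (lq : ℕ → Finset ℕ → ℝ) (F : Finset ℕ) : ℝ :=
  (if F ⊆ P₀ ∪ P₁ then a₁ * (cp (F ∩ P₀) * lp (F ∩ P₁)) + a₂ * (cp (F ∩ P₀) * lm (F ∩ P₁)) +
      a₃ * (cm (F ∩ P₀) * lp (F ∩ P₁)) else 0) +
    ∑ q ∈ Q, (if F \ (P₀ ∪ P₁) = {q} then a₄ * (cp (F ∩ P₀) * lq q (F ∩ P₁)) else 0)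

section
variable (P₀ P₁ Q : Finset ℕ) (a₁ a₂ a₃ a₄ : ℝ) (cp cm lp lm : Finset ℕ → ℝ) (lq : ℕ → Finset ℕ → ℝ)

private theorem LOW_sub (F : Finset ℕ) (h : F ⊆ P₀ ∪ P₁) :
    LOW_C P₀ P₁ Q a₁ a₂ a₃ a₄ cp cm lp lm lq F =
      a₁ * (cp (F ∩ P₀) * lp (F ∩ P₁)) + a₂ * (cp (F ∩ P₀) * lm (F ∩ P₁)) +
      a₃ * (cm (F ∩ P₀) * lp (F ∩ P₁)) := by
  unfold LOW_C
  rw [if_pos h, Finset.sum_eq_zero, add_zero]
  intro p _
  rw [if_neg]
  rw [Finset.sdiff_eq_empty_iff_subset.2 h]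
  exact (Finset.singleton_ne_empty p).symm

private theorem LOW_one (F : Finset ℕ) (q : ℕ) (hq : q ∈ Q) (h : F \ (P₀ ∪ P₁) = {q}) :
    LOW_C P₀ P₁ Q a₁ a₂ a₃ a₄ cp cm lp lm lq F = a₄ * (cp (F ∩ P₀) * lq q (F ∩ P₁)) := by
  unfold LOW_C
  have h1 : ¬ F ⊆ P₀ ∪ P₁ := by
    intro h2
    rw [Finset.sdiff_eq_empty_iff_subset.2 h2] at h
    exact (Finset.singleton_ne_empty q) h.symm
  rw [if_neg h1, Finset.sum_eq_single q, if_pos h, zero_add]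
  · intro p _ hpq
    rw [if_neg]
    rw [h]
    intro h2
    exact hpq (Finset.singleton_injective h2).symm
  · intro h2
    exact absurd hq h2

private theorem LOW_zero (F : Finset ℕ) (h1 : ¬ F ⊆ P₀ ∪ P₁) (h : ∀ q ∈ Q, F \ (P₀ ∪ P₁) ≠ {q}) :
    LOW_C P₀ P₁ Q a₁ a₂ a₃ a₄ cp cm lp lm lq F = 0 := by
  unfold LOW_C
  rw [if_neg h1, Finset.sum_eq_zero, add_zero]
  intro p hp
  rw [if_neg (h p hp)]

/-- The sums of the combined weights. -/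
private theorem LOW_sum (Γ : Finset ℕ) (w : ℕ → ℝ) (hd : Disjoint P₀ P₁)
    (hQ : ∀ p ∈ Q, p ∉ P₀ ∪ P₁) :
    ∑ F ∈ Γ.powerset, LOW_C P₀ P₁ Q a₁ a₂ a₃ a₄ cp cm lp lm lq F * ∏ p ∈ F, w p =
      a₁ * ((∑ E ∈ (Γ ∩ P₀).powerset, cp E * ∏ p ∈ E, w p) *
        ∑ K ∈ (Γ ∩ P₁).powerset, lp K * ∏ p ∈ K, w p) +
      a₂ * ((∑ E ∈ (Γ ∩ P₀).powerset, cp E * ∏ p ∈ E, w p) *
        ∑ K ∈ (Γ ∩ P₁).powerset, lm K * ∏ p ∈ K, w p) +
      a₃ * ((∑ E ∈ (Γ ∩ P₀).powerset, cm E * ∏ p ∈ E, w p) *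
        ∑ K ∈ (Γ ∩ P₁).powerset, lp K * ∏ p ∈ K, w p) +
      a₄ * ∑ q ∈ Q, (if q ∈ Γ then w q * ((∑ E ∈ (Γ ∩ P₀).powerset, cp E * ∏ p ∈ E, w p) *
        ∑ K ∈ (Γ ∩ P₁).powerset, lq q K * ∏ p ∈ K, w p) else 0) := by
  have hw : ∀ F ⊆ P₀ ∪ P₁, ∏ p ∈ F, w p = (∏ p ∈ F ∩ P₀, w p) * ∏ p ∈ F ∩ P₁, w p := by
    intro F hF
    rw [← Finset.prod_union (Finset.disjoint_of_subset_left Finset.inter_subset_right
      (Finset.disjoint_of_subset_right Finset.inter_subset_right hd)),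
      ← Finset.inter_union_distrib_left, Finset.inter_eq_left.2 hF]
  have h1 : ∀ F ∈ Γ.powerset, LOW_C P₀ P₁ Q a₁ a₂ a₃ a₄ cp cm lp lm lq F * ∏ p ∈ F, w p =
      (if F ⊆ P₀ ∪ P₁ then (a₁ * (cp (F ∩ P₀) * lp (F ∩ P₁)) + a₂ * (cp (F ∩ P₀) * lm (F ∩ P₁)) +
        a₃ * (cm (F ∩ P₀) * lp (F ∩ P₁))) * ∏ p ∈ F, w p else 0) +
      ∑ q ∈ Q, (if F \ (P₀ ∪ P₁) = {q} then
        a₄ * (cp (F ∩ P₀) * lq q (F ∩ P₁)) * ∏ p ∈ F, w p else 0) := by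
    intro F _
    unfold LOW_C
    rw [add_mul, ite_mul, zero_mul, Finset.sum_mul]
    congr 1
    refine Finset.sum_congr rfl fun p _ => ?_
    rw [ite_mul, zero_mul]
  rw [Finset.sum_congr rfl h1, Finset.sum_add_distrib, LOW_s1, Finset.sum_comm]
  have h2 : ∑ E ∈ (Γ ∩ (P₀ ∪ P₁)).powerset, (a₁ * (cp (E ∩ P₀) * lp (E ∩ P₁)) +
      a₂ * (cp (E ∩ P₀) * lm (E ∩ P₁)) + a₃ * (cm (E ∩ P₀) * lp (E ∩ P₁))) * ∏ p ∈ E, w p =
      a₁ * ((∑ E ∈ (Γ ∩ P₀).powerset, cp E * ∏ p ∈ E, w p) *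
        ∑ K ∈ (Γ ∩ P₁).powerset, lp K * ∏ p ∈ K, w p) +
      a₂ * ((∑ E ∈ (Γ ∩ P₀).powerset, cp E * ∏ p ∈ E, w p) *
        ∑ K ∈ (Γ ∩ P₁).powerset, lm K * ∏ p ∈ K, w p) +
      a₃ * ((∑ E ∈ (Γ ∩ P₀).powerset, cm E * ∏ p ∈ E, w p) *
        ∑ K ∈ (Γ ∩ P₁).powerset, lp K * ∏ p ∈ K, w p) := by
    rw [← LOW_prod P₀ P₁ Γ hd, ← LOW_prod P₀ P₁ Γ hd, ← LOW_prod P₀ P₁ Γ hd, Finset.mul_sum,
      Finset.mul_sum, Finset.mul_sum, ← Finset.sum_add_distrib, ← Finset.sum_add_distrib]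
    refine Finset.sum_congr rfl fun F hF => ?_
    rw [Finset.mem_powerset] at hF
    rw [hw F (hF.trans Finset.inter_subset_right)]
    ring
  have h3 : ∑ q ∈ Q, ∑ F ∈ Γ.powerset, (if F \ (P₀ ∪ P₁) = {q} then
        a₄ * (cp (F ∩ P₀) * lq q (F ∩ P₁)) * ∏ p ∈ F, w p else 0) =
      a₄ * ∑ q ∈ Q, (if q ∈ Γ then w q * ((∑ E ∈ (Γ ∩ P₀).powerset, cp E * ∏ p ∈ E, w p) *
        ∑ K ∈ (Γ ∩ P₁).powerset, lq q K * ∏ p ∈ K, w p) else 0) := by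
    rw [Finset.mul_sum]
    refine Finset.sum_congr rfl fun q hq => ?_
    rw [LOW_s2 Γ (P₀ ∪ P₁) q (hQ q hq)
      (fun F => a₄ * (cp (F ∩ P₀) * lq q (F ∩ P₁)) * ∏ p ∈ F, w p), mul_ite, mul_zero]
    split_ifs
    · rw [← LOW_prod P₀ P₁ Γ hd, Finset.mul_sum, Finset.mul_sum]
      refine Finset.sum_congr rfl fun F hF => ?_
      rw [Finset.mem_powerset] at hF
      have hF' : F ⊆ P₀ ∪ P₁ := hF.trans Finset.inter_subset_right
      have hqF : q ∉ F := fun h => hQ q hq (hF' h)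
      have hq0 : q ∉ P₀ := fun h => hQ q hq (Finset.mem_union_left _ h)
      have hq1 : q ∉ P₁ := fun h => hQ q hq (Finset.mem_union_right _ h)
      rw [Finset.prod_insert hqF, Finset.insert_inter_of_notMem hq0,
        Finset.insert_inter_of_notMem hq1, hw F hF']
      ring
    · rfl
  rw [h2, h3]

private theorem LOW_abs (F : Finset ℕ) (B : ℝ) (hB : |a₁| + |a₂| + |a₃| ≤ B) (hB' : |a₄| ≤ B)
    (hcp : ∀ E, |cp E| ≤ 1) (hcm : ∀ E, |cm E| ≤ 1) (hlp : ∀ E, |lp E| ≤ 1) (hlm : ∀ E, |lm E| ≤ 1)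
    (hlq : ∀ q E, |lq q E| ≤ 1) :
    |LOW_C P₀ P₁ Q a₁ a₂ a₃ a₄ cp cm lp lm lq F| ≤ B := by
  have hm : ∀ a b c : ℝ, |b| ≤ 1 → |c| ≤ 1 → |a * (b * c)| ≤ |a| := by
    intro a b c hb hc
    rw [abs_mul, abs_mul]
    have h1 : |b| * |c| ≤ 1 := mul_le_one₀ hb (abs_nonneg _) hc
    calc |a| * (|b| * |c|) ≤ |a| * 1 := mul_le_mul_of_nonneg_left h1 (abs_nonneg _)
      _ = |a| := mul_one _
  by_cases h1 : F ⊆ P₀ ∪ P₁
  · rw [LOW_sub _ _ _ _ _ _ _ _ _ _ _ _ F h1]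
    have h2 := hm a₁ _ _ (hcp (F ∩ P₀)) (hlp (F ∩ P₁))
    have h3 := hm a₂ _ _ (hcp (F ∩ P₀)) (hlm (F ∩ P₁))
    have h4 := hm a₃ _ _ (hcm (F ∩ P₀)) (hlp (F ∩ P₁))
    have h5 := abs_add_le (a₁ * (cp (F ∩ P₀) * lp (F ∩ P₁)) + a₂ * (cp (F ∩ P₀) * lm (F ∩ P₁)))
      (a₃ * (cm (F ∩ P₀) * lp (F ∩ P₁)))
    have h6 := abs_add_le (a₁ * (cp (F ∩ P₀) * lp (F ∩ P₁))) (a₂ * (cp (F ∩ P₀) * lm (F ∩ P₁)))
    linarith
  · by_cases h2 : ∃ q ∈ Q, F \ (P₀ ∪ P₁) = {q}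
    · obtain ⟨q, hq, h3⟩ := h2
      rw [LOW_one _ _ _ _ _ _ _ _ _ _ _ _ F q hq h3]
      exact (hm a₄ _ _ (hcp _) (hlq q _)).trans hB'
    · rw [LOW_zero _ _ _ _ _ _ _ _ _ _ _ _ F h1 (fun q hq h3 => h2 ⟨q, hq, h3⟩), abs_zero]
      exact (abs_nonneg _).trans hB'

private theorem LOW_lev (F U : Finset ℕ) (m Ld : ℝ) (ℓ : ℕ → ℝ) (hd : Disjoint P₀ P₁)
    (hQ : ∀ p ∈ Q, p ∉ P₀ ∪ P₁) (hU : P₀ ∪ P₁ ⊆ U) (hQU : Q ⊆ U)
    (hcp : ∀ E, cp E ≠ 0 → ∑ p ∈ E, ℓ p ≤ m) (hcm : ∀ E, cm E ≠ 0 → ∑ p ∈ E, ℓ p ≤ m)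
    (hlp : ∀ K ⊆ P₁, lp K ≠ 0 → ∑ p ∈ K, ℓ p ≤ Ld) (hlm : ∀ K ⊆ P₁, lm K ≠ 0 → ∑ p ∈ K, ℓ p ≤ Ld)
    (hlq : ∀ q ∈ Q, ∀ K ⊆ P₁, lq q K ≠ 0 → ∑ p ∈ K, ℓ p ≤ Ld - ℓ q)
    (hF : LOW_C P₀ P₁ Q a₁ a₂ a₃ a₄ cp cm lp lm lq F ≠ 0) : F ⊆ U ∧ ∑ p ∈ F, ℓ p ≤ m + Ld := by
  have hw : ∀ F ⊆ P₀ ∪ P₁, ∑ p ∈ F, ℓ p = ∑ p ∈ F ∩ P₀, ℓ p + ∑ p ∈ F ∩ P₁, ℓ p := by
    intro F hF
    rw [← Finset.sum_union (Finset.disjoint_of_subset_left Finset.inter_subset_right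
      (Finset.disjoint_of_subset_right Finset.inter_subset_right hd)),
      ← Finset.inter_union_distrib_left, Finset.inter_eq_left.2 hF]
  by_cases h1 : F ⊆ P₀ ∪ P₁
  · refine ⟨h1.trans hU, ?_⟩
    rw [LOW_sub _ _ _ _ _ _ _ _ _ _ _ _ F h1] at hF
    have h2 : cp (F ∩ P₀) ≠ 0 ∨ cm (F ∩ P₀) ≠ 0 := by
      by_contra h3
      push Not at h3
      apply hF
      rw [h3.1, h3.2]
      ring
    have h4 : lp (F ∩ P₁) ≠ 0 ∨ lm (F ∩ P₁) ≠ 0 := by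
      by_contra h3
      push Not at h3
      apply hF
      rw [h3.1, h3.2]
      ring
    have h5 : ∑ p ∈ F ∩ P₀, ℓ p ≤ m := h2.elim (hcp _) (hcm _)
    have h6 : ∑ p ∈ F ∩ P₁, ℓ p ≤ Ld :=
      h4.elim (hlp _ Finset.inter_subset_right) (hlm _ Finset.inter_subset_right)
    rw [hw F h1]
    linarith
  · by_cases h2 : ∃ q ∈ Q, F \ (P₀ ∪ P₁) = {q}
    · obtain ⟨q, hq, h3⟩ := h2
      rw [LOW_one _ _ _ _ _ _ _ _ _ _ _ _ F q hq h3] at hF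
      have h4 : cp (F ∩ P₀) ≠ 0 := by
        intro h
        apply hF
        rw [h]
        ring
      have h5 : lq q (F ∩ P₁) ≠ 0 := by
        intro h
        apply hF
        rw [h]
        ring
      have h6 := hcp _ h4
      have h7 := hlq q hq _ Finset.inter_subset_right h5
      have h8 := LOW_split F (P₀ ∪ P₁) q h3
      have hq0 : q ∉ F ∩ (P₀ ∪ P₁) := fun h => hQ q hq (Finset.mem_inter.1 h).2
      refine ⟨?_, ?_⟩
      · rw [h8]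
        intro y hy
        rcases Finset.mem_insert.1 hy with rfl | hy
        · exact hQU hq
        · exact hU (Finset.mem_inter.1 hy).2
      · rw [h8, Finset.sum_insert hq0, hw _ Finset.inter_subset_right]
        have h9 : F ∩ (P₀ ∪ P₁) ∩ P₀ = F ∩ P₀ := by
          rw [Finset.inter_assoc, Finset.inter_eq_right.2 Finset.subset_union_left]
        have h10 : F ∩ (P₀ ∪ P₁) ∩ P₁ = F ∩ P₁ := by
          rw [Finset.inter_assoc, Finset.inter_eq_right.2 Finset.subset_union_right]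
        rw [h9, h10]
        linarith
    · exact absurd (LOW_zero _ _ _ _ _ _ _ _ _ _ _ _ F h1 (fun q hq h3 => h2 ⟨q, hq, h3⟩)) hF

end

/-- The real inequalities for the inner sums. -/
private theorem LOW_real (Sp Sm Rp Rm T : ℝ) (e0 e1 : Prop) [Decidable e0] [Decidable e1]
    (hSp : (if e0 then (1 : ℝ) else 0) ≤ Sp) (hSm : Sm ≤ if e0 then (1 : ℝ) else 0)
    (hSp1 : e0 → Sp = 1) (hRp0 : 0 ≤ Rp) (hRp : e1 → Rp = 1) (hRm1 : e1 → Rm = 1)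
    (hRm : Rm ≤ if e1 then (1 : ℝ) else 0) (hT : 0 ≤ T) :
    (¬ (e0 ∧ e1) → -1 * (Sp * Rp) + 1 * (Sp * Rm) + 1 * (Sm * Rp) + -(1 / 2) * T ≤ 0) ∧
    |-1 * (Sp * Rp) + 1 * (Sp * Rm) + 1 * (Sm * Rp) + -(1 / 2) * T| ≤
      3 * (Sp * Rp) + -1 * (Sp * Rm) + -1 * (Sm * Rp) + 1 / 2 * T := by
  have hSp0 : 0 ≤ Sp := by
    by_cases h : e0
    · rw [if_pos h] at hSp; linarith
    · rw [if_neg h] at hSp; exact hSp
  have hS : Sm ≤ Sp := hSm.trans hSp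
  have hR : Rm ≤ Rp := by
    by_cases h : e1
    · rw [hRp h, hRm1 h]
    · rw [if_neg h] at hRm; linarith
  have h1 : 0 ≤ Sp * (Rp - Rm) := mul_nonneg hSp0 (by linarith)
  have h2 : 0 ≤ (Sp - Sm) * Rp := mul_nonneg (by linarith) hRp0
  have h3 : 0 ≤ Sp * Rp := mul_nonneg hSp0 hRp0
  refine ⟨fun h => ?_, ?_⟩
  · by_cases he : e0
    · have he1 : ¬ e1 := fun h' => h ⟨he, h'⟩
      rw [if_pos he] at hSm
      rw [if_neg he1] at hRm
      rw [hSp1 he]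
      have h4 : 0 ≤ (1 - Sm) * Rp := mul_nonneg (by linarith) hRp0
      nlinarith
    · rw [if_neg he] at hSm
      have h4 : Sm * Rp ≤ 0 := mul_nonpos_of_nonpos_of_nonneg hSm hRp0
      nlinarith
  · rw [abs_le]
    constructor <;> nlinarith

theorem LOW (h1 : Pool.Agent.CHS.PA_stmt) (h2 : Pool.Agent.RLS.LA_stmt) (h3 : Pool.Agent.RLS.SI_stmt)
    (h4 : Pool.Agent.RLS.CT_stmt) (h5 : EXV_stmt) : LOW_stmt := by
  obtain ⟨hPB, hU, hV, -⟩ := h1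
  obtain ⟨hLA0, -, -, hLA1⟩ := h2
  intro x h Z Y Ld m₀ δ hx hxh hhZ hZY hZL hYZ hδ0 hδ1 hLo hUp hSS
  obtain ⟨cm, hm1, hm2, hm3, hm4⟩ := hLo
  obtain ⟨cp, hp1, hp2, hp3, hp4⟩ := hUp
  have hh2 : 2 ≤ h := hx.trans hxh
  have hZ2 : 2 ≤ Z := hh2.trans hhZ
  obtain ⟨hun0, hd0, -, -⟩ := hU x h Z hxh hhZ
  obtain ⟨hun1, hd1, -, -⟩ := hU x Z Y (hxh.trans hhZ) hZY
  set P₀ := PB x h with hP₀
  set P₁ := PB h Z with hP₁
  set Q := PB Z Y with hQ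
  rw [hun0] at hun1 hd1
  have hQ0 : ∀ p ∈ Q, p ∉ P₀ ∪ P₁ := fun p hp h => (Finset.disjoint_left.1 hd1 h) hp
  have hg01 : ∀ s t : ℝ, 2 ≤ s → ∀ p ∈ PB s t, 0 ≤ gg p ∧ gg p ≤ 1 := by
    intro s t hs p hp
    have h6 := (hV s t hs).2.2.2 p hp
    unfold gg
    exact ⟨h6.2.1.le, by linarith [h6.2.2]⟩
  have hCT : ∀ (b : Bool) (L : ℝ) (K : Finset ℕ), K ⊆ P₁ → lam b L K ≠ 0 → 0 ≤ L →
      (b = false → 2 * Z ≤ L) → ∑ p ∈ K, Real.log p ≤ L := by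
    intro b L K hK hne hL hb
    obtain ⟨K₁, hK₁, ha, hb'⟩ := h4 b L L 0 K (fun p hp => by
      have h6 := ((hPB h Z p).1 (hK hp)).1
      exact h6.one_lt.le) hne (fun hbf p hp => by
        have h6 := ((hPB h Z p).1 (hK hp)).2.2
        linarith [hb hbf]) hL le_rfl (add_zero L)
    have h7 := Finset.sum_sdiff (f := fun p : ℕ => Real.log p) hK₁
    linarith
  set lq : ℕ → Finset ℕ → ℝ := fun q K => lam true (Ld - Real.log q) K with hlq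
  have hLd0 : 0 ≤ Ld := by linarith
  -- the sums over the subsets of a set
  have hsum : ∀ (Γ : Finset ℕ) (a₁ a₂ a₃ a₄ : ℝ),
      ∑ F ∈ Γ.powerset, LOW_C P₀ P₁ Q a₁ a₂ a₃ a₄ cp cm (lam true Ld) (lam false Ld) lq F =
        a₁ * ((∑ E ∈ (Γ ∩ P₀).powerset, cp E) * ∑ K ∈ (Γ ∩ P₁).powerset, lam true Ld K) +
        a₂ * ((∑ E ∈ (Γ ∩ P₀).powerset, cp E) * ∑ K ∈ (Γ ∩ P₁).powerset, lam false Ld K) +
        a₃ * ((∑ E ∈ (Γ ∩ P₀).powerset, cm E) * ∑ K ∈ (Γ ∩ P₁).powerset, lam true Ld K) +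
        a₄ * ∑ q ∈ Q, (if q ∈ Γ then (∑ E ∈ (Γ ∩ P₀).powerset, cp E) *
          ∑ K ∈ (Γ ∩ P₁).powerset, lq q K else 0) := by
    intro Γ a₁ a₂ a₃ a₄
    have h6 := LOW_sum P₀ P₁ Q a₁ a₂ a₃ a₄ cp cm (lam true Ld) (lam false Ld) lq Γ (fun _ => 1)
      hd0 hQ0
    simp only [Finset.prod_const_one, mul_one, one_mul] at h6
    exact h6
  have hSp1 : ∀ Γ : Finset ℕ, Γ ∩ P₀ = ∅ → ∑ E ∈ (Γ ∩ P₀).powerset, cp E = 1 := by
    intro Γ hΓ
    have h6 := hp3 ∅ (Finset.empty_subset _)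
    rw [if_pos rfl, Finset.powerset_empty, Finset.sum_singleton] at h6
    rw [hΓ, Finset.powerset_empty, Finset.sum_singleton]
    have h7 := (abs_le.1 (hp1 ∅)).2
    linarith
  have hR1 : ∀ (b : Bool) (L : ℝ) (Γ : Finset ℕ), Γ ∩ P₁ = ∅ →
      ∑ K ∈ (Γ ∩ P₁).powerset, lam b L K = 1 := by
    intro b L Γ hΓ
    rw [hΓ, Finset.powerset_empty, Finset.sum_singleton]
    exact hLA0 b L
  have hT0 : ∀ Γ : Finset ℕ, 0 ≤ ∑ q ∈ Q, (if q ∈ Γ then (∑ E ∈ (Γ ∩ P₀).powerset, cp E) *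
          ∑ K ∈ (Γ ∩ P₁).powerset, lq q K else 0) := by
    intro Γ
    refine Finset.sum_nonneg fun q _ => ?_
    split_ifs
    · refine mul_nonneg ?_ (h3 (Ld - Real.log q) (Γ ∩ P₁)).1
      refine le_trans ?_ (hp3 (Γ ∩ P₀) Finset.inter_subset_right)
      split_ifs <;> norm_num
    · exact le_rfl
  have hreal : ∀ Γ : Finset ℕ, _ := fun Γ =>
    LOW_real _ _ _ _ _ (Γ ∩ P₀ = ∅) (Γ ∩ P₁ = ∅) (hp3 (Γ ∩ P₀) Finset.inter_subset_right)
      (hm3 (Γ ∩ P₀) Finset.inter_subset_right) (hSp1 Γ) (h3 Ld (Γ ∩ P₁)).1 (hR1 true Ld Γ)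
      (hR1 false Ld Γ) (h3 Ld (Γ ∩ P₁)).2.2 (hT0 Γ)
  -- the main terms
  have hVp : 0 < Pool.Agent.CHS.V P₀ := (hV x h hx).1
  have hMpV : Pool.Agent.CHS.V P₀ ≤ ∑ E ∈ P₀.powerset, cp E * ∏ p ∈ E, gg p :=
    (h5 P₀ gg cp (hg01 x h hx)).1 hp3
  have hSSp : ∀ L : ℝ, 0 ≤ SS true gg L P₁ := fun L =>
    (h5 P₁ gg (lam true L) (hg01 h Z hh2)).2 fun Γ _ => (h3 L Γ).1
  have hgQ : ∀ q ∈ Q, 0 ≤ gg q := fun q hq => (hg01 Z Y hZ2 q hq).1
  have hTQ : 0 ≤ ∑ q ∈ Q, gg q * SS true gg (Ld - Real.log q) P₁ :=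
    Finset.sum_nonneg fun q hq => mul_nonneg (hgQ q hq) (hSSp _)
  have hmain : ∀ a₁ a₂ a₃ a₄ : ℝ,
      ∑ F ∈ (PB x Y).powerset, LOW_C P₀ P₁ Q a₁ a₂ a₃ a₄ cp cm (lam true Ld) (lam false Ld) lq F *
        Pool.Agent.CHS.g F =
        a₁ * ((∑ E ∈ P₀.powerset, cp E * ∏ p ∈ E, gg p) * SS true gg Ld P₁) +
        a₂ * ((∑ E ∈ P₀.powerset, cp E * ∏ p ∈ E, gg p) * SS false gg Ld P₁) +
        a₃ * ((∑ E ∈ P₀.powerset, cm E * ∏ p ∈ E, gg p) * SS true gg Ld P₁) +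
        a₄ * ((∑ E ∈ P₀.powerset, cp E * ∏ p ∈ E, gg p) *
          ∑ q ∈ Q, gg q * SS true gg (Ld - Real.log q) P₁) := by
    intro a₁ a₂ a₃ a₄
    have h6 := LOW_sum P₀ P₁ Q a₁ a₂ a₃ a₄ cp cm (lam true Ld) (lam false Ld) lq (PB x Y) gg
      hd0 hQ0
    have h7 : PB x Y ∩ P₀ = P₀ := by
      rw [hun1]
      exact Finset.inter_eq_right.2 (Finset.subset_union_left.trans Finset.subset_union_left)
    have h8 : PB x Y ∩ P₁ = P₁ := by
      rw [hun1]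
      exact Finset.inter_eq_right.2 (Finset.subset_union_right.trans Finset.subset_union_left)
    rw [h7, h8] at h6
    refine h6.trans ?_
    have h9 : ∑ q ∈ Q, (if q ∈ PB x Y then gg q * ((∑ E ∈ P₀.powerset, cp E * ∏ p ∈ E, gg p) *
        ∑ K ∈ P₁.powerset, lq q K * ∏ p ∈ K, gg p) else 0) =
        (∑ E ∈ P₀.powerset, cp E * ∏ p ∈ E, gg p) *
          ∑ q ∈ Q, gg q * SS true gg (Ld - Real.log q) P₁ := by
      rw [Finset.mul_sum]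
      refine Finset.sum_congr rfl fun q hq => ?_
      rw [if_pos (by rw [hun1]; exact Finset.mem_union_right _ hq)]
      show gg q * ((∑ E ∈ P₀.powerset, cp E * ∏ p ∈ E, gg p) *
        SS true gg (Ld - Real.log q) P₁) = _
      ring
    rw [h9]
    rfl
  have hMp' : (∑ E ∈ P₀.powerset, cp E * ∏ p ∈ E, gg p) ≤ Pool.Agent.CHS.V P₀ * (1 + δ) := hp4
  have hMm' : Pool.Agent.CHS.V P₀ * (1 - δ) ≤ (∑ E ∈ P₀.powerset, cm E * ∏ p ∈ E, gg p) := hm4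
  -- the weights
  refine ⟨LOW_C P₀ P₁ Q (-1) 1 1 (-(1 / 2)) cp cm (lam true Ld) (lam false Ld) lq,
    LOW_C P₀ P₁ Q 3 (-1) (-1) (1 / 2) cp cm (lam true Ld) (lam false Ld) lq, ?_, ?_, ?_, ?_, ?_, ?_⟩
  · intro F
    constructor
    · refine LOW_abs _ _ _ _ _ _ _ _ _ _ _ _ F 3 ?_ ?_ hp1 hm1 (hLA1 _ _) (hLA1 _ _)
        (fun q E => hLA1 _ _ _)
      · norm_num
      · rw [abs_neg, abs_of_pos] <;> norm_num
    · refine LOW_abs _ _ _ _ _ _ _ _ _ _ _ _ F 5 ?_ ?_ hp1 hm1 (hLA1 _ _) (hLA1 _ _)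
        (fun q E => hLA1 _ _ _)
      · norm_num
      · rw [abs_of_pos] <;> norm_num
  · intro F hF
    have hlev : ∀ a₁ a₂ a₃ a₄ : ℝ,
        LOW_C P₀ P₁ Q a₁ a₂ a₃ a₄ cp cm (lam true Ld) (lam false Ld) lq F ≠ 0 →
        F ⊆ PB x Y ∧ ∑ p ∈ F, Real.log p ≤ m₀ + Ld := by
      intro a₁ a₂ a₃ a₄ hne
      refine LOW_lev P₀ P₁ Q a₁ a₂ a₃ a₄ cp cm (lam true Ld) (lam false Ld) lq F (PB x Y) m₀ Ld
        (fun p => Real.log p) hd0 hQ0 ?_ ?_ (fun E hE => (hp2 E hE).2) (fun E hE => (hm2 E hE).2)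
        (fun K hK hne => hCT true Ld K hK hne hLd0 (fun h => absurd h (by decide)))
        (fun K hK hne => hCT false Ld K hK hne hLd0 (fun _ => hZL)) ?_ hne
      · rw [hun1]; exact Finset.subset_union_left
      · rw [hun1]; exact Finset.subset_union_right
      · intro q hq K hK hne'
        have h6 := ((hPB Z Y q).1 hq).2.2
        exact hCT true (Ld - Real.log q) K hK hne' (by linarith) (fun h => absurd h (by decide))
    exact hF.elim (hlev _ _ _ _) (hlev _ _ _ _)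
  · intro Γ hΓ
    rw [hsum Γ]
    by_cases he : Γ ∩ PB x Z = ∅
    · rw [if_pos he]
      rw [hun0, Finset.inter_union_distrib_left, Finset.union_eq_empty] at he
      have h6 := hm3 (Γ ∩ P₀) Finset.inter_subset_right
      rw [if_pos he.1] at h6
      rw [hSp1 Γ he.1, hR1 true Ld Γ he.2, hR1 false Ld Γ he.2]
      have h7 : ∑ q ∈ Q, (if q ∈ Γ then (1 : ℝ) * ∑ K ∈ (Γ ∩ P₁).powerset, lq q K else 0) =
          (#Γ : ℝ) := by
        have h8 : ∀ q ∈ Q, (if q ∈ Γ then (1 : ℝ) * ∑ K ∈ (Γ ∩ P₁).powerset, lq q K else 0) =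
            if q ∈ Γ then (1 : ℝ) else 0 := by
          intro q _
          have h9 : ∑ K ∈ (Γ ∩ P₁).powerset, lq q K = 1 := hR1 true (Ld - Real.log q) Γ he.2
          rw [h9, mul_one]
        rw [Finset.sum_congr rfl h8, ← Finset.sum_filter]
        have h10 : Q.filter (fun p => p ∈ Γ) = Γ := by
          ext p
          rw [Finset.mem_filter]
          constructor
          · exact fun h => h.2
          · intro h
            refine ⟨?_, h⟩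
            have h11 := hΓ h
            rw [hun1, Finset.mem_union, Finset.mem_union] at h11
            rcases h11 with (h12 | h12) | h12
            · have h13 : p ∈ Γ ∩ P₀ := Finset.mem_inter.2 ⟨h, h12⟩
              rw [he.1] at h13
              exact absurd h13 (Finset.notMem_empty p)
            · have h13 : p ∈ Γ ∩ P₁ := Finset.mem_inter.2 ⟨h, h12⟩
              rw [he.2] at h13
              exact absurd h13 (Finset.notMem_empty p)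
            · exact h12
        rw [h10, Finset.sum_const, nsmul_eq_mul, mul_one]
      rw [h7]
      linarith
    · rw [if_neg he]
      refine (hreal Γ).1 fun h6 => he ?_
      rw [hun0, Finset.inter_union_distrib_left, Finset.union_eq_empty]
      exact h6
  · intro Γ _
    rw [hsum Γ, hsum Γ]
    exact (hreal Γ).2
  · rw [hmain]
    set Mp := ∑ E ∈ P₀.powerset, cp E * ∏ p ∈ E, gg p with hMpd
    set Mm := ∑ E ∈ P₀.powerset, cm E * ∏ p ∈ E, gg p with hMmd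
    set T := ∑ q ∈ Q, gg q * SS true gg (Ld - Real.log q) P₁ with hTd
    have h6 : Pool.Agent.CHS.V P₀ * SS false gg Ld P₁ ≤ Mp * SS false gg Ld P₁ :=
      mul_le_mul_of_nonneg_right hMpV hSS
    have h7 : (Mp - Mm) * SS true gg Ld P₁ ≤ (2 * δ * Pool.Agent.CHS.V P₀) * SS true gg Ld P₁ :=
      mul_le_mul_of_nonneg_right (by linarith) (hSSp Ld)
    have h8 : Mp * T ≤ Pool.Agent.CHS.V P₀ * (1 + δ) * T := mul_le_mul_of_nonneg_right hMp' hTQ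
    nlinarith
  · rw [hmain]
    set Mp := ∑ E ∈ P₀.powerset, cp E * ∏ p ∈ E, gg p with hMpd
    set Mm := ∑ E ∈ P₀.powerset, cm E * ∏ p ∈ E, gg p with hMmd
    set T := ∑ q ∈ Q, gg q * SS true gg (Ld - Real.log q) P₁ with hTd
    have h6 : 0 ≤ Mp * SS false gg Ld P₁ := mul_nonneg (hVp.le.trans hMpV) hSS
    have h7 : (Mp - Mm) * SS true gg Ld P₁ ≤ (2 * (Pool.Agent.CHS.V P₀ * (1 + δ))) * SS true gg Ld P₁ := by
      refine mul_le_mul_of_nonneg_right ?_ (hSSp Ld)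
      nlinarith
    have h8 : Mp * T ≤ Pool.Agent.CHS.V P₀ * (1 + δ) * T := mul_le_mul_of_nonneg_right hMp' hTQ
    have h9 : Mp * SS true gg Ld P₁ ≤ Pool.Agent.CHS.V P₀ * (1 + δ) * SS true gg Ld P₁ :=
      mul_le_mul_of_nonneg_right hMp' (hSSp Ld)
    nlinarith

end Pool.Agent.EC
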