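import Pool.Agent.helper26.EC.SpecW

set_option autoImplicit false

namespace Pool.Agent.EC

open Finset ArithmeticFunction

/-- Mass of one cell. -/
theorem MCL (h1 : Pool.Agent.CH.MER_stmt) : MCL_stmt := by
  obtain ⟨C, hC, h⟩ := h1
  intro j hj κ hκ
  refine ⟨⌈Real.exp (962 * (1 + C / κ))⌉₊ + 2, fun N hN S hS => ?_⟩
  have hjr : (1 : ℝ) ≤ (j : ℝ) := by exact_mod_cast hj
  have hj0 : (0 : ℝ) < (j : ℝ) := by linarith
  have hNr : Real.exp (962 * (1 + C / κ)) ≤ (N : ℝ) := by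
    have h1 : Real.exp (962 * (1 + C / κ)) ≤ (⌈Real.exp (962 * (1 + C / κ))⌉₊ : ℝ) := Nat.le_ceil _
    have h2 : ((⌈Real.exp (962 * (1 + C / κ))⌉₊ + 2 : ℕ) : ℝ) ≤ (N : ℝ) := by exact_mod_cast hN
    push_cast at h2
    linarith
  have hN0 : (0 : ℝ) < (N : ℝ) := lt_of_lt_of_le (Real.exp_pos _) hNr
  have hL : 962 * (1 + C / κ) ≤ Real.log N := by
    rw [Real.le_log_iff_exp_le hN0]; exact hNr
  have hCk : 0 < C / κ := div_pos hC hκ
  have hL0 : 0 < Real.log N := by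
    have : (0 : ℝ) < 962 * (1 + C / κ) := by positivity
    linarith
  set a : ℝ := (N : ℝ) ^ (3 * (j : ℝ) / 962) with ha
  set b : ℝ := (N : ℝ) ^ (3 * ((j : ℝ) + 1) / 962) with hb
  have hla : Real.log a = 3 * (j : ℝ) / 962 * Real.log N := by rw [ha, Real.log_rpow hN0]
  have hlb : Real.log b = 3 * ((j : ℝ) + 1) / 962 * Real.log N := by rw [hb, Real.log_rpow hN0]
  have ha0 : 0 < a := Real.rpow_pos_of_pos hN0 _
  have hb0 : 0 < b := Real.rpow_pos_of_pos hN0 _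
  have hla1 : 1 + C / κ ≤ Real.log a := by
    rw [hla]
    have h3 : 3 * (j : ℝ) / 962 * (962 * (1 + C / κ)) ≤ 3 * (j : ℝ) / 962 * Real.log N :=
      mul_le_mul_of_nonneg_left hL (by positivity)
    have h4 : 3 * (j : ℝ) / 962 * (962 * (1 + C / κ)) = 3 * (j : ℝ) * (1 + C / κ) := by ring
    have h5 : 1 * (1 + C / κ) ≤ 3 * (j : ℝ) * (1 + C / κ) :=
      mul_le_mul_of_nonneg_right (by linarith) (by positivity)
    linarith
  have hlapos : 0 < Real.log a := by linarith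
  have ha2 : 2 ≤ a := by
    have h6 : Real.log 2 ≤ Real.log a := by
      have := Real.log_two_lt_d9
      linarith
    exact (Real.log_le_log_iff (by norm_num) ha0).1 h6
  have hab : a ≤ b := by
    have h7 : Real.log a ≤ Real.log b := by
      rw [hla, hlb]
      apply mul_le_mul_of_nonneg_right _ hL0.le
      linarith
    exact (Real.log_le_log_iff ha0 hb0).1 h7
  have hm := h a b ha2 hab
  have hq : Real.log b / Real.log a = ((j : ℝ) + 1) / j := by
    rw [hla, hlb]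
    field_simp
  rw [hq] at hm
  have hk : C / Real.log a ≤ κ := by
    rw [div_le_iff₀ hlapos]
    have h8 : κ * (C / κ) ≤ κ * Real.log a := mul_le_mul_of_nonneg_left (by linarith) hκ.le
    have h9 : κ * (C / κ) = C := by field_simp
    linarith
  have hsub : S ⊆ (Icc 1 ⌊b⌋₊).filter (fun p : ℕ => p.Prime ∧ a ≤ (p : ℝ)) := by
    intro p hp
    obtain ⟨hp1, hp2, hp3⟩ := hS p hp
    rw [mem_filter, mem_Icc]
    exact ⟨⟨hp1.one_lt.le, Nat.le_floor hp3.le⟩, hp1, hp2⟩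
  calc ∑ p ∈ S, 1 / (p : ℝ)
      ≤ ∑ p ∈ (Icc 1 ⌊b⌋₊).filter (fun p : ℕ => p.Prime ∧ a ≤ (p : ℝ)), 1 / (p : ℝ) :=
        sum_le_sum_of_subset_of_nonneg hsub fun p _ _ => by positivity
    _ ≤ _ := by linarith

end Pool.Agent.EC
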