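import Pool.Agent.helper4.EC.Spec

/-! # Row ST of the project EC (MP_ee5996_co) -/

set_option autoImplicit false

namespace Pool.Agent.helper4.EC

open Finset

universe u

theorem ST (h1 : SA_stmt.{u}) (h2 : S3_stmt.{u}) : ST_stmt.{u} := by
  intro V _ G hc hci hdf hsb k W hW
  obtain ⟨hA, hN⟩ := hW
  have hs : ∀ i, i < k + 1 → ∃ x y, Sl G (W i).1 x y ∧
      (W (i + 1)).1 = insert y ((W i).1.erase x) := fun i hi => (h1 V G _ _).1 (hA i hi)
  have : Nonempty V := by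
    obtain ⟨x, -, -⟩ := hs 0 (Nat.succ_pos k)
    exact ⟨x⟩
  choose! p q hpq using hs
  have hv : ∀ i, i < k → ∃ v, G.Adj (q i) v ∧ G.Adj v (p (i + 1)) ∧ p i ≠ v ∧ ¬ G.Adj (p i) v ∧
      v ≠ q (i + 1) ∧ ¬ G.Adj v (q (i + 1)) ∧ q i ≠ p (i + 1) ∧ ¬ G.Adj (q i) (p (i + 1)) := by
    intro i hi
    have a1 := hpq i (by omega)
    have a2 := hpq (i + 1) (by omega)
    have a3 := hN i (by omega)
    refine h2 V G hc hci hdf hsb (W i).1 (W (i + 1)).1 (W (i + 2)).1 (p i) (q i) (p (i + 1))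
      (q (i + 1)) (W i).2 (W (i + 1)).2 (W (i + 2)).2 a1.1 a1.2 a2.1 a2.2 ?_ ?_
    · intro h
      exact a3.1 (Subtype.ext h)
    · intro hX hZ h
      exact a3.2 h
  choose! v hv using hv
  set w : ℕ → V := fun n => if n % 3 = 0 then p (n / 3) else if n % 3 = 1 then q (n / 3)
    else v (n / 3) with hw
  have w0 : ∀ i, w (3 * i) = p i := by
    intro i
    rw [hw]
    simp only
    rw [if_pos (by omega), show 3 * i / 3 = i by omega]
  have w1 : ∀ i, w (3 * i + 1) = q i := by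
    intro i
    rw [hw]
    simp only
    rw [if_neg (by omega), if_pos (by omega), show (3 * i + 1) / 3 = i by omega]
  have w2 : ∀ i, w (3 * i + 2) = v i := by
    intro i
    rw [hw]
    simp only
    rw [if_neg (by omega), if_neg (by omega), show (3 * i + 2) / 3 = i by omega]
  refine ⟨w, ?_, ?_⟩
  · intro n hn
    obtain ⟨i, hi | hi | hi⟩ : ∃ i, n = 3 * i ∨ n = 3 * i + 1 ∨ n = 3 * i + 2 :=
      ⟨n / 3, by omega⟩
    · subst hi
      rw [w0, w1]
      exact (hpq i (by omega)).1.2.2.1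
    · subst hi
      rw [w1, w2]
      exact (hv i (by omega)).1
    · subst hi
      rw [w2, show 3 * i + 2 + 1 = 3 * (i + 1) by omega, w0]
      exact (hv i (by omega)).2.1
  · intro n hn
    obtain ⟨i, hi | hi | hi⟩ : ∃ i, n = 3 * i ∨ n = 3 * i + 1 ∨ n = 3 * i + 2 :=
      ⟨n / 3, by omega⟩
    · subst hi
      rw [w0, w2]
      exact ⟨(hv i (by omega)).2.2.1, (hv i (by omega)).2.2.2.1⟩
    · subst hi
      rw [w1, show 3 * i + 1 + 2 = 3 * (i + 1) by omega, w0]
      exact (hv i (by omega)).2.2.2.2.2.2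
    · subst hi
      rw [w2, show 3 * i + 2 + 2 = 3 * (i + 1) + 1 by omega, w1]
      exact ⟨(hv i (by omega)).2.2.2.2.1, (hv i (by omega)).2.2.2.2.2.1⟩

end Pool.Agent.helper4.EC
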